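import Pool.Agent.H48.FXD.ALL

/-!
# MP_ea41d9_gt: a circle fixed by isometries of a space with curvature at least one has length at
most `2 π` when its arcs of some length greater than `π / 2` are minimizing

`M` is a Riemannian manifold without boundary (Mathlib's `IsRiemannianManifold`) with curvature at
least one in the sense of Alexandrov's triangle comparison, `G` is a compact group acting on it by
isometries, and the fixed point set of `G` is a simple closed geodesic `F` of length `L`.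
-/

open Bundle Manifold
open scoped ContDiff

namespace Pool.Agent.Results.MP_ea41d9_gt.MinimizingArcs

open Pool.Agent.H48.FXD

theorem result
    {E : Type*} [NormedAddCommGroup E] [NormedSpace ℝ E] [FiniteDimensional ℝ E]
    {M : Type*} [MetricSpace M] [ChartedSpace E M] [IsManifold 𝓘(ℝ, E) ∞ M]
    [RiemannianBundle (fun x : M => TangentSpace 𝓘(ℝ, E) x)]
    [IsContMDiffRiemannianBundle 𝓘(ℝ, E) ∞ E (fun x : M => TangentSpace 𝓘(ℝ, E) x)]
    [IsRiemannianManifold 𝓘(ℝ, E) M] (hM : CurvGeOne M)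
    {G : Type*} [Group G] [TopologicalSpace G] [IsTopologicalGroup G] [CompactSpace G]
    [MulAction G M] (hG : IsometricAction E M G)
    {F : ℝ → M} {L : ℝ} (hF : FixedCircle E G F L) :
    (∀ l : ℝ, Real.pi / 2 < l → (∀ s t : ℝ, |s - t| ≤ l → dist (F s) (F t) = |s - t|) →
      L ≤ 2 * Real.pi) ∧
    (∀ p q : ℝ, (∀ s t : ℝ, dist (F s) (F t) ≤ dist (F p) (F q)) →
      Real.pi / 2 < dist (F p) (F q) →
      ∀ r₁ r₂ : ℝ, 0 ≤ r₁ → 0 ≤ r₂ → Real.pi / 2 ≤ dist (F p) (F (p + r₁)) →
        Real.pi / 2 ≤ dist (F p) (F (p - r₂)) → L ≤ Real.pi + r₁ + r₂) :=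
  ⟨fun _ hl hmin => (fixedCircle_curveKer hM hG hF).bound_inj hl hmin,
    fun _ _ hmax hD _ _ h1 h2 h3 h4 =>
      (fixedCircle_curveKer hM hG hF).bound_arcs hmax hD h1 h2 h3 h4⟩

end Pool.Agent.Results.MP_ea41d9_gt.MinimizingArcs
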