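import Pool.Agent.H60.FXE.Fin

/-!
# MP_ea41d9_gt: a circle fixed by isometries has length at most `2 π` if the orbit space of the
group on the unit normal vectors is small and the orbit space of the manifold has diameter bigger
than `π / 2`

`M` is a compact Riemannian manifold (Mathlib's `IsRiemannianManifold`) with curvature at least one
in the sense of Alexandrov's triangle comparison, `G` is a compact group acting on it by isometries,
and the fixed point set of `G` is a simple closed geodesic `F` of length `L`. `NormalAngle E G F c`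
says that any two unit vectors normal to `F` at the same point can be moved by `G` to an angle with
cosine at least `c`. If there are points `p`, `q` of `M` such that the distance `d` of `g • p` and
`q` satisfies `π / 2 < d` and `(1 + c) cos d ≤ 3 c - 1` for all `g` in `G` (the second condition is
automatic if `1 / 3 ≤ c`), then `L ≤ 2 π`.
-/

open Bundle Manifold
open scoped ContDiff

namespace Pool.Agent.Results.MP_ea41d9_gt.NormalAngle

open Pool.Agent.H48.FXD Pool.Agent.H60.FXE

theorem result
    {E : Type*} [NormedAddCommGroup E] [NormedSpace ℝ E] [FiniteDimensional ℝ E]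
    {M : Type*} [MetricSpace M] [CompactSpace M] [ChartedSpace E M] [IsManifold 𝓘(ℝ, E) ∞ M]
    [RiemannianBundle (fun x : M => TangentSpace 𝓘(ℝ, E) x)]
    [IsContMDiffRiemannianBundle 𝓘(ℝ, E) ∞ E (fun x : M => TangentSpace 𝓘(ℝ, E) x)]
    [IsRiemannianManifold 𝓘(ℝ, E) M] (hM : CurvGeOne M)
    {G : Type*} [Group G] [TopologicalSpace G] [IsTopologicalGroup G] [CompactSpace G]
    [MulAction G M] (hG : IsometricAction E M G)
    {F : ℝ → M} {L : ℝ} (hF : FixedCircle E G F L)
    {c : ℝ} (hc0 : 0 ≤ c) (hc1 : c ≤ 1) (hN : NormalAngle E G F c)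
    {p q : M} (hpq : ∀ g : G, Real.pi / 2 < dist (g • p) q)
    (hc : ∀ g : G, (1 + c) * Real.cos (dist (g • p) q) ≤ 3 * c - 1) :
    L ≤ 2 * Real.pi :=
  circle_length_le hM hG hF hc0 hc1 hN hpq hc

end Pool.Agent.Results.MP_ea41d9_gt.NormalAngle
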