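import Pool.Agent.H48.FXF.OD

/-!
# MP_ea41d9_gt: a bound for the length of a circle fixed by isometries of a space with
curvature at least one, from the diameter of the orbit space

`M` is a compact Riemannian manifold (Mathlib's `IsRiemannianManifold`) with curvature at least one
in the sense of Alexandrov's triangle comparison, `G` is a compact group acting on it by isometries,
and the fixed point set of `G` is a simple closed geodesic `F` of length `L`. If `M` has points `p`
and `q` such that the distance of `g • p` and `q` is at least `d > π / 2` for all `g` in `G`, then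
`L ≤ 2 √(π² + log² (-cos d))`.
-/

open Bundle Manifold
open scoped ContDiff

namespace Pool.Agent.Results.MP_ea41d9_gt.OrbitDiameter

open Pool.Agent.H48.FXD

theorem result
    {E : Type*} [NormedAddCommGroup E] [NormedSpace ℝ E] [FiniteDimensional ℝ E]
    {M : Type*} [MetricSpace M] [CompactSpace M] [ChartedSpace E M] [IsManifold 𝓘(ℝ, E) ∞ M]
    [RiemannianBundle (fun x : M => TangentSpace 𝓘(ℝ, E) x)]
    [IsContMDiffRiemannianBundle 𝓘(ℝ, E) ∞ E (fun x : M => TangentSpace 𝓘(ℝ, E) x)]
    [IsRiemannianManifold 𝓘(ℝ, E) M] (hM : CurvGeOne M)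
    {G : Type*} [Group G] [TopologicalSpace G] [IsTopologicalGroup G] [CompactSpace G]
    [MulAction G M] (hG : IsometricAction E M G)
    {F : ℝ → M} {L : ℝ} (hF : FixedCircle E G F L)
    {p q : M} {d : ℝ} (hd : Real.pi / 2 < d) (hpq : ∀ g : G, d ≤ dist (g • p) q) :
    L ≤ 2 * Real.sqrt (Real.pi ^ 2 + Real.log (-Real.cos d) ^ 2) :=
  Pool.Agent.H48.FXF.circle_length_le_log hM hG hF hd hpq

end Pool.Agent.Results.MP_ea41d9_gt.OrbitDiameter
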